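import Pool.Agent.Lib.MP_778288_lc.Restr

open Pool.Agent.Lib.MP_778288_lc

/-- A polynomial time approximation of maximum Nash welfare within a factor below the cube root
of `81 / 65` gives `P = NP`, even for restricted assignment valuations with two item values and
at most four interested agents per good. -/
theorem Pool.Agent.Results.MP_778288_lc.RestrictedHardness.result (α : ℝ) (h1 : 1 ≤ α)
    (h2 : α < (81 / 65 : ℝ) ^ (1 / 3 : ℝ)) (A : List (List ℚ) → List ℕ)
    (hA : N68a2faeb.IsPolyTime A) (happ : IsApproxR α A) : N68a2faeb.P = N68a2faeb.NP := by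
  refine hardnessR (by linarith) ?_ hA happ
  refine (pow_lt_pow_left₀ h2 (by linarith) three_ne_zero).trans_eq ?_
  rw [← Real.rpow_natCast, ← Real.rpow_mul (by norm_num)]
  norm_num
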